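import Mathlib
import Pool.Agent.H51.LonA

set_option autoImplicit false

namespace Pool.Agent.Results.MP_b0d7fb_nt.Counter

open Pool.Agent.H51.LonA

/-- distance to the nearest integer -/
noncomputable def nrm (x : ℝ) : ℝ := |x - round x|

def MLRC {k : ℕ} (d : Fin k → ℝ) : Prop :=
  ∀ s : Fin k → ℕ, Function.Injective s → (∀ i, 0 < s i) → ∃ t : ℝ, ∀ i, d i ≤ nrm (s i * t)

def MLPS (k : ℕ) : Set (Fin k → ℝ) := {d | (∀ i, 0 < d i ∧ d i ≤ 1 / 2) ∧ MLRC d}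

def UpperBoundary (k : ℕ) : Set (Fin k → ℝ) :=
  {d | d ∈ MLPS k ∧ ¬ ∃ e ∈ MLPS k, e ≠ d ∧ ∀ i, d i ≤ e i}

noncomputable def D (k : ℕ) : Fin k → ℝ := fun _ => 1 / (k + 1)

lemma nrm_of_G {d x : ℝ} (h : G d x) : d ≤ nrm x := h.far _

lemma G_of_nrm {d x : ℝ} (h : d ≤ nrm x) : G d x :=
  G_of_far fun n => h.trans (round_le x n)

lemma mem3 {a b c : ℝ} (ha : 0 < a ∧ a ≤ 1 / 2) (hb : 0 < b ∧ b ≤ 1 / 2) (hc : 0 < c ∧ c ≤ 1 / 2)
    (h : ∀ u v w : ℕ, 0 < u → 0 < v → 0 < w → ∃ t : ℝ, G a (u * t) ∧ G b (v * t) ∧ G c (w * t)) :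
    ![a, b, c] ∈ MLPS 3 := by
  refine ⟨fun i => by fin_cases i; exacts [ha, hb, hc], fun s _ hs => ?_⟩
  obtain ⟨t, h1, h2, h3⟩ := h (s 0) (s 1) (s 2) (hs 0) (hs 1) (hs 2)
  refine ⟨t, fun i => ?_⟩
  fin_cases i
  · exact nrm_of_G h1
  · exact nrm_of_G h2
  · exact nrm_of_G h3

lemma exists_max {k : ℕ} (d : Fin k → ℝ) (hd : d ∈ MLPS k) : ∃ e ∈ UpperBoundary k, d ≤ e := by
  let C : (Fin k → ℕ) → Set ((Fin k → ℝ) × ℝ) := fun s =>
    (Set.Icc d (fun _ => 1 / 2) ×ˢ Set.Icc 0 1) ∩ {p | ∀ i, ∀ m : ℤ, p.1 i ≤ |s i * p.2 - m|}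
  have hC : ∀ s, IsCompact (C s) := fun s => by
    refine (isCompact_Icc.prod isCompact_Icc).inter_right ?_
    simp only [Set.setOf_forall]
    exact isClosed_iInter fun i => isClosed_iInter fun m =>
      isClosed_le (by fun_prop) (by fun_prop)
  let K : Set (Fin k → ℝ) := Set.Icc d (fun _ => 1 / 2) ∩
    ⋂ s : {s : Fin k → ℕ // Function.Injective s ∧ ∀ i, 0 < s i}, Prod.fst '' C s.1
  have hK : IsCompact K := isCompact_Icc.inter_right
    (isClosed_iInter fun s => ((hC s.1).image continuous_fst).isClosed)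
  have hmem : ∀ e, e ∈ K ↔ e ∈ MLPS k ∧ d ≤ e := by
    intro e
    constructor
    · rintro ⟨⟨h1, h2⟩, h3⟩
      refine ⟨⟨fun i => ⟨(hd.1 i).1.trans_le (h1 i), h2 i⟩, fun s hs hs' => ?_⟩, h1⟩
      obtain ⟨p, ⟨-, hp⟩, rfl⟩ := Set.mem_iInter.1 h3 ⟨s, hs, hs'⟩
      exact ⟨p.2, fun i => hp i _⟩
    · rintro ⟨⟨h1, h2⟩, h3⟩
      refine ⟨⟨h3, fun i => (h1 i).2⟩, Set.mem_iInter.2 fun s => ?_⟩
      obtain ⟨t, ht⟩ := h2 s.1 s.2.1 s.2.2
      refine ⟨(e, Int.fract t), ⟨⟨⟨h3, fun i => (h1 i).2⟩, Int.fract_nonneg t,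
        (Int.fract_lt_one t).le⟩, fun i m => ?_⟩, rfl⟩
      exact ((G_of_nrm (ht i)).add_int (-(s.1 i * ⌊t⌋)) (by
        simp only [Int.fract]; push_cast; ring)).far m
  obtain ⟨e, he, hmax⟩ := hK.exists_isMaxOn ⟨d, (hmem d).2 ⟨hd, le_rfl⟩⟩
    (f := fun e => ∑ i, e i) (by fun_prop)
  obtain ⟨he1, he2⟩ := (hmem e).1 he
  refine ⟨e, ⟨he1, ?_⟩, he2⟩
  rintro ⟨f, hf, hne, hle⟩
  have h1 : ∑ i, f i ≤ ∑ i, e i := hmax ((hmem f).2 ⟨hf, he2.trans hle⟩)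
  obtain ⟨i, hi⟩ := Function.ne_iff.1 hne
  exact absurd h1 (not_le.2 (Finset.sum_lt_sum (fun i _ => hle i)
    ⟨i, Finset.mem_univ _, lt_of_le_of_ne (hle i) hi.symm⟩))

lemma perm_MLPS {k : ℕ} (σ : Equiv.Perm (Fin k)) {d : Fin k → ℝ} (h : d ∈ MLPS k) :
    d ∘ σ ∈ MLPS k := by
  refine ⟨fun i => h.1 _, fun s hs hs' => ?_⟩
  obtain ⟨t, ht⟩ := h.2 (s ∘ σ.symm) (hs.comp σ.symm.injective) (fun i => hs' _)
  exact ⟨t, fun i => by simpa using ht (σ i)⟩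

lemma perm_UB {k : ℕ} (σ : Equiv.Perm (Fin k)) {d : Fin k → ℝ} (h : d ∈ UpperBoundary k) :
    d ∘ σ ∈ UpperBoundary k := by
  refine ⟨perm_MLPS σ h.1, ?_⟩
  rintro ⟨e, he, hne, hle⟩
  refine h.2 ⟨e ∘ σ.symm, perm_MLPS σ.symm he, fun e2 => hne ?_, fun i => by simpa using hle (σ.symm i)⟩
  rw [← e2]; funext i; simp

lemma avg_mem {e : Fin 3 → ℝ} (he : e ∈ UpperBoundary 3) (h : 1 / 4 < e 0) :
    (fun _ => (e 0 + e 1 + e 2) / 3) ∈ convexHull ℝ (UpperBoundary 3 \ {D 3}) := by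
  have key : ∀ σ : Equiv.Perm (Fin 3), e ∘ σ ∈ convexHull ℝ (UpperBoundary 3 \ {D 3}) := by
    intro σ
    refine subset_convexHull ℝ _ ⟨perm_UB σ he, fun e2 => ?_⟩
    have := congrFun (Set.mem_singleton_iff.1 e2) (σ.symm 0)
    simp only [Function.comp, Equiv.apply_symm_apply, D] at this
    norm_num at this
    linarith
  have := (convex_convexHull ℝ (UpperBoundary 3 \ {D 3})).sum_mem (t := Finset.univ)
    (w := fun _ : Fin 3 => (1 / 3 : ℝ)) (z := fun j => e ∘ Equiv.addRight j)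
    (fun _ _ => by norm_num) (by norm_num) (fun j _ => key _)
  convert this using 1
  funext i
  fin_cases i <;> simp [Fin.sum_univ_three] <;> ring

lemma two_bound {a b t : ℝ} (h1 : G a t) (h2 : G b (2 * t)) : 2 * a + b ≤ 1 := by
  obtain ⟨m, a1, a2⟩ := h1
  have := h2.far (2 * m + 1)
  push_cast at this
  rcases le_abs.1 this with h | h <;> linarith

theorem result : ∃ k : ℕ, 1 ≤ k ∧ D k ∈ MLPS k ∧ D k ∈ convexHull ℝ (UpperBoundary k \ {D k}) := by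
  have hD : D 3 = fun _ => 1 / 4 := by funext i; simp [D]; norm_num
  refine ⟨3, by norm_num, ?_, ?_⟩
  · have := mem3 (a := 1 / 4) (b := 1 / 4) (c := 1 / 4) (by norm_num) (by norm_num) (by norm_num)
      (fun u v w hu hv hw => by
        simpa using LR3 u u v w (by omega) (by omega) (by omega) le_rfl)
    convert this using 1
    rw [hD]; funext i; fin_cases i <;> simp
  obtain ⟨e, he, he2⟩ := exists_max _ (mem3 (a := 7 / 20) (b := 1 / 5) (c := 1 / 5) (by norm_num)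
    (by norm_num) (by norm_num) (fun u v w hu hv hw => by
      simpa using MX u u v w (by omega) (by omega) (by omega) le_rfl))
  obtain ⟨f, hf, hf2⟩ := exists_max _ (mem3 (a := 5 / 12) (b := 1 / 100) (c := 1 / 100)
    (by norm_num) (by norm_num) (by norm_num) small)
  have e0 : 7 / 20 ≤ e 0 := he2 0
  have e1 : 1 / 5 ≤ e 1 := he2 1
  have e2 : 1 / 5 ≤ e 2 := he2 2
  have f0 : 5 / 12 ≤ f 0 := hf2 0
  have f1 : 2 * f 0 + f 1 ≤ 1 := by
    obtain ⟨t, ht⟩ := hf.1.2 ![1, 2, 3] (by decide) (by decide)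
    exact two_bound (t := t) (by simpa using G_of_nrm (ht 0)) (by simpa using G_of_nrm (ht 1))
  have f2 : 2 * f 0 + f 2 ≤ 1 := by
    obtain ⟨t, ht⟩ := hf.1.2 ![1, 3, 2] (by decide) (by decide)
    exact two_bound (t := t) (by simpa using G_of_nrm (ht 0)) (by simpa using G_of_nrm (ht 2))
  have m1 := avg_mem he (by linarith)
  have m2 := avg_mem hf (by linarith)
  have hseg : (1 / 4 : ℝ) ∈ segment ℝ ((f 0 + f 1 + f 2) / 3) ((e 0 + e 1 + e 2) / 3) := by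
    rw [segment_eq_Icc (by linarith)]
    constructor <;> linarith
  obtain ⟨a, b, ha, hb, hab, h⟩ := hseg
  have := convex_convexHull ℝ _ m2 m1 ha hb hab
  convert this using 1
  nth_rewrite 1 [hD]
  funext i
  rw [← h]; simp

end Pool.Agent.Results.MP_b0d7fb_nt.Counter
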